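import Pool.Agent.Lib_helper15.Bishop.Defs

/-!
# Module L: a periodic function of small growth vanishes
-/

set_option autoImplicit false

open Filter Topology Function Set

namespace Pool.Agent.Bishop

namespace ModLmod

open Function.Periodic

/-- an entire 1-periodic function of small growth vanishes -/
lemma entire_zero {g : ℂ → ℂ} (hg : Differentiable ℂ g) (hper : Function.Periodic g 1) {C b : ℝ}
    (hb0 : 0 ≤ b) (hb : b < Real.pi)
    (hbd : ∀ z : ℂ, ‖g z‖ ≤ C * Real.exp (Real.pi * z.im + b * |z.im|)) (z₀ : ℂ) : g z₀ = 0 := by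
  have hC : 0 ≤ C := by
    have := (norm_nonneg _).trans (hbd 0)
    simpa using this
  set f : ℂ → ℂ := fun z => g z * qParam 1 z with hf
  have hqper : Function.Periodic (qParam 1) ((1 : ℝ) : ℂ) := by
    intro z
    unfold qParam
    rw [Complex.exp_eq_exp_iff_exists_int]
    refine ⟨1, ?_⟩
    push_cast
    ring
  have hfper : Function.Periodic f ((1 : ℝ) : ℂ) := by
    intro z
    simp only [hf]
    rw [hqper z]
    have := hper z
    rw [Complex.ofReal_one, this]
  have hfd : Differentiable ℂ f := hg.mul differentiable_qParam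
  -- decay at I infinity
  have hfbd : ∀ z : ℂ, ‖f z‖ ≤ C * Real.exp (b * |z.im| - Real.pi * z.im) := by
    intro z
    simp only [hf]
    rw [norm_mul, norm_qParam]
    calc ‖g z‖ * Real.exp (-2 * Real.pi * z.im / 1)
        ≤ (C * Real.exp (Real.pi * z.im + b * |z.im|)) * Real.exp (-2 * Real.pi * z.im / 1) :=
          mul_le_mul_of_nonneg_right (hbd z) (Real.exp_pos _).le
      _ = C * Real.exp (b * |z.im| - Real.pi * z.im) := by
          rw [mul_assoc, ← Real.exp_add]
          congr 2
          ring
  have hzero : ZeroAtFilter (comap Complex.im atTop) f := by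
    unfold ZeroAtFilter
    rw [tendsto_zero_iff_norm_tendsto_zero]
    have h1 : Tendsto (fun v : ℝ => C * Real.exp (-((Real.pi - b) * v))) atTop (𝓝 0) := by
      rw [← mul_zero C]
      refine Tendsto.const_mul C ?_
      refine Real.tendsto_exp_atBot.comp ?_
      refine tendsto_neg_atTop_atBot.comp ?_
      exact tendsto_id.const_mul_atTop (by linarith)
    have h2 : Tendsto (fun z : ℂ => C * Real.exp (-((Real.pi - b) * z.im)))
        (comap Complex.im atTop) (𝓝 0) := h1.comp tendsto_comap
    refine squeeze_zero' (Eventually.of_forall fun _ => norm_nonneg _) ?_ h2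
    have h3 : ∀ᶠ z : ℂ in comap Complex.im atTop, 0 ≤ z.im :=
      tendsto_comap.eventually (eventually_ge_atTop 0)
    filter_upwards [h3] with z hz
    refine (hfbd z).trans ?_
    rw [abs_of_nonneg hz]
    refine mul_le_mul_of_nonneg_left (Real.exp_le_exp.2 ?_) hC
    linarith
  have hbounded : BoundedAtFilter (comap Complex.im atTop) f := hzero.boundedAtFilter
  set F := cuspFunction 1 f with hF
  have hF0 : F 0 = 0 := cuspFunction_zero_of_zero_at_inf one_pos hzero
  have hFd : Differentiable ℂ F := by
    intro q
    by_cases hq : q = 0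
    · rw [hq]
      exact differentiableAt_cuspFunction_zero one_pos hfper
        (Eventually.of_forall fun z => hfd z) hbounded
    · have := differentiableAt_cuspFunction one_ne_zero hfper (hfd (invQParam 1 q))
      rwa [qParam_right_inv one_ne_zero hq] at this
  have hFq : ∀ z, F (qParam 1 z) = g z * qParam 1 z := fun z =>
    eq_cuspFunction one_ne_zero hfper z
  set H := dslope F 0 with hH
  have hHd : Differentiable ℂ H := by
    rw [← differentiableOn_univ, Complex.differentiableOn_dslope univ_mem]
    exact hFd.differentiableOn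
  have hHq : ∀ z, H (qParam 1 z) = g z := by
    intro z
    have hne : qParam 1 z ≠ 0 := qParam_ne_zero z
    rw [hH, dslope_of_ne F hne, slope_def_field, hFq, hF0]
    field_simp
    ring
  have hHt : Tendsto H (cocompact ℂ) (𝓝 0) := by
    rw [tendsto_zero_iff_norm_tendsto_zero]
    have h1 : Tendsto (fun r : ℝ => C * Real.exp (-((Real.pi - b) / (2 * Real.pi) * Real.log r)))
        atTop (𝓝 0) := by
      rw [← mul_zero C]
      refine Tendsto.const_mul C ?_
      refine Real.tendsto_exp_atBot.comp ?_
      refine tendsto_neg_atTop_atBot.comp ?_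
      refine Real.tendsto_log_atTop.const_mul_atTop ?_
      have := Real.pi_pos
      exact div_pos (by linarith) (by linarith)
    have h2 := h1.comp (tendsto_norm_cocompact_atTop (E := ℂ))
    refine squeeze_zero' (Eventually.of_forall fun _ => norm_nonneg _) ?_ h2
    have h3 : ∀ᶠ q : ℂ in cocompact ℂ, 1 ≤ ‖q‖ :=
      tendsto_norm_cocompact_atTop.eventually (eventually_ge_atTop 1)
    filter_upwards [h3] with q hq
    have hq0 : q ≠ 0 := by
      rw [← norm_pos_iff]
      linarith
    have h4 := hHq (invQParam 1 q)
    rw [qParam_right_inv one_ne_zero hq0] at h4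
    rw [h4]
    refine (hbd _).trans ?_
    simp only [Function.comp]
    refine mul_le_mul_of_nonneg_left (Real.exp_le_exp.2 ?_) hC
    have him := im_invQParam 1 q
    have hl : 0 ≤ Real.log ‖q‖ := Real.log_nonneg hq
    have hpi := Real.pi_pos
    have him' : (invQParam 1 q).im = -(Real.log ‖q‖ / (2 * Real.pi)) := by
      rw [him]
      field_simp
    have hneg : (invQParam 1 q).im ≤ 0 := by
      rw [him']
      have : 0 ≤ Real.log ‖q‖ / (2 * Real.pi) := by positivity
      linarith
    rw [abs_of_nonpos hneg, him']
    have e : Real.pi * -(Real.log ‖q‖ / (2 * Real.pi)) + b * -(-(Real.log ‖q‖ / (2 * Real.pi))) =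
        -((Real.pi - b) / (2 * Real.pi) * Real.log ‖q‖) := by
      field_simp
      ring
    rw [e]
  have hfin := hHd.apply_eq_of_tendsto_cocompact (qParam 1 z₀) hHt
  rw [hHq] at hfin
  exact hfin

end ModLmod

open ModLmod in
theorem modL : ModL := by
  intro h C b hb0 hb hd hper hbd
  have hopen : IsOpen {z : ℂ | |z.re| < 2} :=
    isOpen_lt (by fun_prop) continuous_const
  set g : ℂ → ℂ := fun z => h (z - (⌊z.re⌋ : ℝ)) with hg
  have hgper : Function.Periodic g 1 := by
    intro z
    simp only [hg]
    congr 1
    have : ⌊(z + 1).re⌋ = ⌊z.re⌋ + 1 := by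
      rw [Complex.add_re, Complex.one_re, Int.floor_add_one]
    rw [this]
    push_cast
    ring
  have hgd : Differentiable ℂ g := by
    intro z₀
    set n : ℤ := ⌊z₀.re⌋ with hn
    have hn1 : (n : ℝ) ≤ z₀.re := Int.floor_le _
    have hn2 : z₀.re < n + 1 := Int.lt_floor_add_one _
    have heq : g =ᶠ[𝓝 z₀] fun z => h (z - (n : ℝ)) := by
      have hnear : ∀ᶠ z : ℂ in 𝓝 z₀, |z.re - z₀.re| < 1 / 2 := by
        have hc : Continuous fun z : ℂ => |z.re - z₀.re| := by fun_prop
        have : (fun z : ℂ => |z.re - z₀.re|) z₀ < 1 / 2 := by simp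
        exact hc.continuousAt.eventually_lt continuousAt_const this
      filter_upwards [hnear] with z hz
      rw [abs_lt] at hz
      simp only [hg]
      have hm1 : n - 1 ≤ ⌊z.re⌋ := by
        rw [Int.le_floor]
        push_cast
        linarith
      have hm2 : ⌊z.re⌋ < n + 2 := by
        rw [Int.floor_lt]
        push_cast
        linarith
      have hf1 : (⌊z.re⌋ : ℝ) ≤ z.re := Int.floor_le _
      have hf2 : z.re < ⌊z.re⌋ + 1 := Int.lt_floor_add_one _
      have hcases : ⌊z.re⌋ = n - 1 ∨ ⌊z.re⌋ = n ∨ ⌊z.re⌋ = n + 1 := by omega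
      rcases hcases with hc | hc | hc
      · rw [hc] at hf1 hf2 ⊢
        push_cast at hf1 hf2 ⊢
        have e : z - ((n : ℂ) - 1) = (z - (n : ℂ)) + 1 := by ring
        rw [e]
        refine hper _ ?_ ?_
        · simp only [Complex.sub_re, Complex.intCast_re]
          rw [abs_lt]
          constructor <;> linarith
        · simp only [Complex.sub_re, Complex.intCast_re]
          rw [abs_lt]
          constructor <;> linarith
      · rw [hc]
      · rw [hc] at hf1 hf2 ⊢
        push_cast at hf1 hf2 ⊢
        have e : z - (n : ℂ) = (z - ((n : ℂ) + 1)) + 1 := by ring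
        rw [e]
        symm
        refine hper _ ?_ ?_
        · simp only [Complex.sub_re, Complex.add_re, Complex.intCast_re, Complex.one_re]
          rw [abs_lt]
          constructor <;> linarith
        · simp only [Complex.sub_re, Complex.add_re, Complex.intCast_re, Complex.one_re]
          rw [abs_lt]
          constructor <;> linarith
    have hdiff : DifferentiableAt ℂ (fun z => h (z - (n : ℝ))) z₀ := by
      have hmem : z₀ - ((n : ℝ) : ℂ) ∈ {z : ℂ | |z.re| < 2} := by
        simp only [Set.mem_ofPred_eq, Complex.sub_re, Complex.ofReal_re]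
        rw [abs_lt]
        constructor <;> linarith
      have h1 : DifferentiableAt ℂ h (z₀ - ((n : ℝ) : ℂ)) :=
        (hd _ hmem).differentiableAt (hopen.mem_nhds hmem)
      exact h1.comp z₀ (by fun_prop)
    exact hdiff.congr_of_eventuallyEq heq
  have hgbd : ∀ z : ℂ, ‖g z‖ ≤ C * Real.exp (Real.pi * z.im + b * |z.im|) := by
    intro z
    simp only [hg]
    have hf1 : (⌊z.re⌋ : ℝ) ≤ z.re := Int.floor_le _
    have hf2 : z.re < ⌊z.re⌋ + 1 := Int.lt_floor_add_one _
    have := hbd (z - (⌊z.re⌋ : ℝ)) (by
      simp only [Complex.sub_re, Complex.ofReal_re]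
      rw [abs_lt]
      constructor <;> linarith)
    simpa using this
  have h0 := entire_zero hgd hgper hb0 hb hgbd 0
  simpa [hg] using h0

end Pool.Agent.Bishop
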