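import Pool.Agent.Lib_helper47.Bishop.Defs

/-!
# Module M3: sums over blocks
-/

set_option autoImplicit false

open MeasureTheory Metric Set

namespace Pool.Agent.Bishop

namespace M3mod

lemma fr_eq_of_mem {t : ℝ} (h0 : 0 < t) (h1 : t ≤ 1) : fr t = t := by
  unfold fr
  have : Int.fract (-t) = 1 - t := by
    rw [Int.fract_eq_iff]
    refine ⟨by linarith, by linarith, -1, ?_⟩
    push_cast
    ring
  rw [this]
  ring

lemma fr_add_int (t : ℝ) (k : ℤ) : fr (t + k) = fr t := by
  unfold fr
  have : -(t + (k : ℝ)) = -t + ((-k : ℤ) : ℝ) := by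
    push_cast
    ring
  rw [this, Int.fract_add_intCast]

lemma fr_pos (t : ℝ) : 0 < fr t := by
  unfold fr
  have := Int.fract_lt_one (-t)
  linarith

lemma fr_le_one (t : ℝ) : fr t ≤ 1 := by
  unfold fr
  have := Int.fract_nonneg (-t)
  linarith

lemma exists_int (t : ℝ) : ∃ k : ℤ, t = fr t + k := by
  refine ⟨-⌊-t⌋ - 1, ?_⟩
  unfold fr
  have := Int.floor_add_fract (-t)
  push_cast
  linarith

/-- residues `(k + (l + c) p) mod q` run through all residues -/
lemma residues {q c : ℕ} (hq : 1 ≤ q) {p : ℤ} (hcop : Nat.Coprime q p.natAbs) (k : ℤ) :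
    ∃ j : ℕ → ℕ, ∃ m : ℕ → ℤ, (∀ l, j l < q) ∧
      (∀ l : ℕ, k + ((l : ℤ) + c) * p = q * m l + j l) ∧
      ∀ G : ℕ → ℝ, ∑ l ∈ Finset.range q, G (j l) = ∑ l ∈ Finset.range q, G l := by
  have hq0 : (0 : ℤ) < q := by exact_mod_cast hq
  have hqne : (q : ℤ) ≠ 0 := hq0.ne'
  refine ⟨fun l => ((k + ((l : ℤ) + c) * p) % q).toNat, fun l => (k + ((l : ℤ) + c) * p) / q,
    ?_, ?_, ?_⟩
  · intro l
    have h1 := Int.emod_lt_of_pos (k + ((l : ℤ) + c) * p) hq0
    have h2 := Int.emod_nonneg (k + ((l : ℤ) + c) * p) hqne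
    simp only
    omega
  · intro l
    have h1 := Int.mul_ediv_add_emod (k + ((l : ℤ) + c) * p) q
    have h2 := Int.emod_nonneg (k + ((l : ℤ) + c) * p) hqne
    simp only
    rw [Int.toNat_of_nonneg h2]
    exact h1.symm
  · intro G
    set j : ℕ → ℕ := fun l => ((k + ((l : ℤ) + c) * p) % q).toNat with hj
    have hlt : ∀ l, j l < q := by
      intro l
      have h1 := Int.emod_lt_of_pos (k + ((l : ℤ) + c) * p) hq0
      have h2 := Int.emod_nonneg (k + ((l : ℤ) + c) * p) hqne
      simp only [hj]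
      omega
    have hinj : Set.InjOn j (Finset.range q : Set ℕ) := by
      intro a ha b hb hab
      have ha' : a < q := Finset.mem_range.1 ha
      have hb' : b < q := Finset.mem_range.1 hb
      have h1 := Int.emod_nonneg (k + ((a : ℤ) + c) * p) hqne
      have h2 := Int.emod_nonneg (k + ((b : ℤ) + c) * p) hqne
      have h3 : (k + ((a : ℤ) + c) * p) % q = (k + ((b : ℤ) + c) * p) % q := by
        simp only [hj] at hab
        omega
      have h4 : (q : ℤ) ∣ (k + ((a : ℤ) + c) * p) - (k + ((b : ℤ) + c) * p) :=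
        Int.ModEq.dvd (show Int.ModEq q (k + ((b : ℤ) + c) * p) (k + ((a : ℤ) + c) * p) from h3.symm)
      have h5 : (q : ℤ) ∣ ((a : ℤ) - b) * p := by
        have e : (k + ((a : ℤ) + c) * p) - (k + ((b : ℤ) + c) * p) = ((a : ℤ) - b) * p := by ring
        rwa [e] at h4
      have h6 : IsCoprime (q : ℤ) p := by
        rw [Int.isCoprime_iff_gcd_eq_one]
        simpa [Int.gcd] using hcop
      have h7 : (q : ℤ) ∣ (a : ℤ) - b := h6.dvd_of_dvd_mul_right h5
      obtain ⟨t, ht⟩ := h7
      have ht0 : t = 0 := by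
        by_contra hne
        rcases lt_or_gt_of_ne hne with h | h
        · have : t ≤ -1 := by omega
          nlinarith
        · have : 1 ≤ t := by omega
          nlinarith
      rw [ht0, mul_zero] at ht
      omega
    have himg : (Finset.range q).image j = Finset.range q := by
      refine Finset.eq_of_subset_of_card_le ?_ ?_
      · intro a ha
        obtain ⟨l, _, rfl⟩ := Finset.mem_image.1 ha
        exact Finset.mem_range.2 (hlt l)
      · rw [Finset.card_image_of_injOn hinj]
    conv_rhs => rw [← himg]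
    rw [Finset.sum_image hinj]

/-- the orbit points of one block -/
lemma block_repr {q c : ℕ} (hq : 1 ≤ q) {p : ℤ} (hcop : Nat.Coprime q p.natAbs) {β δ : ℝ}
    (hβ : q * β = p + δ) (z : ℝ) :
    ∃ j : ℕ → ℕ, (∀ l, j l < q) ∧
      (∀ G : ℕ → ℝ, ∑ l ∈ Finset.range q, G (j l) = ∑ l ∈ Finset.range q, G l) ∧
      ∀ l : ℕ, fr (z + ((l : ℝ) + c) * β) = fr ((fr (q * z) + j l + ((l : ℝ) + c) * δ) / q) := by
  obtain ⟨k, hk⟩ := exists_int (q * z)
  obtain ⟨j, m, h1, h2, h3⟩ := residues (c := c) hq hcop k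
  refine ⟨j, h1, h3, ?_⟩
  intro l
  have hq0 : (q : ℝ) ≠ 0 := by
    have : (0 : ℝ) < q := by exact_mod_cast hq
    exact this.ne'
  have h2' : (k : ℝ) + ((l : ℝ) + c) * p = q * m l + j l := by
    have := h2 l
    exact_mod_cast this
  have e : z + ((l : ℝ) + c) * β = (fr (q * z) + j l + ((l : ℝ) + c) * δ) / q + (m l : ℤ) := by
    have hβ' : β = (p + δ) / q := by
      rw [← hβ]
      field_simp
    have hz : z = (fr (q * z) + k) / q := by
      rw [← hk]
      field_simp
    conv_lhs => rw [hz, hβ']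
    field_simp
    linear_combination h2'
  rw [e, fr_add_int]

lemma vv_le_one (t : ℝ) : vv t ≤ 1 := by
  unfold vv
  have := Real.log_nonpos (fr_pos t).le (fr_le_one t)
  linarith

/-- block without crossing -/
lemma block_mid {q c : ℕ} (hq : 1 ≤ q) (hc : c ≤ 1) {p : ℤ} (hcop : Nat.Coprime q p.natAbs)
    {β δ : ℝ} (hβ : q * β = p + δ) (hδ : 0 < δ) (z : ℝ) (hz : fr (q * z) + q * δ ≤ 1) :
    om q (fr (q * z)) ≤ ∑ l ∈ Finset.range q, vv (z + ((l : ℝ) + c) * β) ∧
    ∑ l ∈ Finset.range q, vv (z + ((l : ℝ) + c) * β) ≤ om q (fr (q * z) + q * δ) := by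
  obtain ⟨j, h1, h3, h4⟩ := block_repr (c := c) hq hcop hβ z
  have hq0 : (0 : ℝ) < q := by exact_mod_cast hq
  set y := fr (q * z) with hy
  have hy0 : 0 < y := fr_pos _
  have hy1 : y ≤ 1 := fr_le_one _
  have hs : 0 < q * δ := by positivity
  have hd : ∀ l < q, 0 ≤ ((l : ℝ) + c) * δ ∧ ((l : ℝ) + c) * δ ≤ q * δ := by
    intro l hl
    refine ⟨by positivity, mul_le_mul_of_nonneg_right ?_ hδ.le⟩
    have : l + c ≤ q := by omega
    exact_mod_cast this
  have hfr : ∀ l < q, fr (z + ((l : ℝ) + c) * β) = (y + j l + ((l : ℝ) + c) * δ) / q := by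
    intro l hl
    rw [h4]
    have hjl : (j l : ℝ) + 1 ≤ q := by exact_mod_cast h1 l
    refine fr_eq_of_mem ?_ ?_
    · have := (hd l hl).1
      positivity
    · rw [div_le_one hq0]
      linarith [(hd l hl).2]
  have e1 : om q y = ∑ l ∈ Finset.range q, (1 + Real.log ((y + j l) / q)) := by
    unfold om
    rw [fr_eq_of_mem hy0 hy1]
    exact (h3 fun l => 1 + Real.log ((y + l) / q)).symm
  have e2 : om q (y + q * δ) = ∑ l ∈ Finset.range q, (1 + Real.log ((y + q * δ + j l) / q)) := by
    unfold om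
    rw [fr_eq_of_mem (by linarith) hz]
    exact (h3 fun l => 1 + Real.log ((y + q * δ + l) / q)).symm
  rw [e1, e2]
  constructor
  · refine Finset.sum_le_sum fun l hl => ?_
    have hl' := Finset.mem_range.1 hl
    unfold vv
    rw [hfr l hl']
    have hpos : 0 < (y + j l) / q := by positivity
    have := Real.log_le_log hpos (div_le_div_of_nonneg_right
      (show y + j l ≤ y + j l + ((l : ℝ) + c) * δ by linarith [(hd l hl').1]) hq0.le)
    linarith
  · refine Finset.sum_le_sum fun l hl => ?_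
    have hl' := Finset.mem_range.1 hl
    unfold vv
    rw [hfr l hl']
    have hpos : 0 < (y + j l + ((l : ℝ) + c) * δ) / q := by
      have := (hd l hl').1
      positivity
    have := Real.log_le_log hpos (div_le_div_of_nonneg_right
      (show y + j l + ((l : ℝ) + c) * δ ≤ y + q * δ + j l by linarith [(hd l hl').2]) hq0.le)
    linarith

/-- upper bound for any block -/
lemma block_up {q c : ℕ} (hq : 1 ≤ q) (hc : c ≤ 1) {p : ℤ} (hcop : Nat.Coprime q p.natAbs)
    {β δ : ℝ} (hβ : q * β = p + δ) (hδ : 0 < δ) (hs1 : q * δ ≤ 1) (z : ℝ) :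
    ∑ l ∈ Finset.range q, vv (z + ((l : ℝ) + c) * β) ≤ om q 1 + Real.log q := by
  obtain ⟨j, h1, h3, h4⟩ := block_repr (c := c) hq hcop hβ z
  have hq0 : (0 : ℝ) < q := by exact_mod_cast hq
  set y := fr (q * z) with hy
  have hy0 : 0 < y := fr_pos _
  have hy1 : y ≤ 1 := fr_le_one _
  have hd : ∀ l < q, 0 ≤ ((l : ℝ) + c) * δ ∧ ((l : ℝ) + c) * δ ≤ q * δ := by
    intro l hl
    refine ⟨by positivity, mul_le_mul_of_nonneg_right ?_ hδ.le⟩
    have : l + c ≤ q := by omega
    exact_mod_cast this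
  obtain ⟨r, rfl⟩ : ∃ r, q = r + 1 := ⟨q - 1, by omega⟩
  set h : ℕ → ℝ := fun i => if i < r then 1 + Real.log (((1 : ℝ) + (i + 1 : ℕ)) / (r + 1 : ℕ)) else 1
    with hh
  have hle : ∀ l ∈ Finset.range (r + 1), vv (z + ((l : ℝ) + c) * β) ≤ h (j l) := by
    intro l hl
    have hl' := Finset.mem_range.1 hl
    by_cases hj : j l < r
    · rw [hh]
      simp only [if_pos hj]
      unfold vv
      rw [h4]
      have hjr : (j l : ℝ) + 2 ≤ (r + 1 : ℕ) := by
        push_cast
        have : j l + 1 ≤ r := hj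
        have : ((j l : ℝ) + 1) ≤ r := by exact_mod_cast this
        linarith
      have hpos : 0 < (y + j l + ((l : ℝ) + c) * δ) / (r + 1 : ℕ) := by
        have := (hd l hl').1
        positivity
      have hle1 : (y + j l + ((l : ℝ) + c) * δ) / (r + 1 : ℕ) ≤ 1 := by
        rw [div_le_one hq0]
        linarith [(hd l hl').2]
      rw [fr_eq_of_mem hpos hle1]
      have := Real.log_le_log hpos (div_le_div_of_nonneg_right
        (show y + j l + ((l : ℝ) + c) * δ ≤ (1 : ℝ) + (j l + 1 : ℕ) by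
          push_cast
          linarith [(hd l hl').2]) hq0.le)
      linarith
    · rw [hh]
      simp only [if_neg hj]
      exact vv_le_one _
  refine (Finset.sum_le_sum hle).trans ?_
  rw [h3 h]
  have e1 : om (r + 1) 1 = ∑ l ∈ Finset.range (r + 1),
      (1 + Real.log (((1 : ℝ) + l) / (r + 1 : ℕ))) := by
    unfold om
    rw [fr_eq_of_mem one_pos le_rfl]
  rw [e1, Finset.sum_range_succ, Finset.sum_range_succ' (fun l : ℕ =>
    (1 + Real.log (((1 : ℝ) + l) / (r + 1 : ℕ))))]
  have e2 : ∑ x ∈ Finset.range r, h x =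
      ∑ k ∈ Finset.range r, (1 + Real.log (((1 : ℝ) + (k + 1 : ℕ)) / (r + 1 : ℕ))) := by
    refine Finset.sum_congr rfl fun i hi => ?_
    rw [hh]
    simp only [if_pos (Finset.mem_range.1 hi)]
  have e3 : h r = 1 := by
    rw [hh]
    simp
  rw [e2, e3]
  have e4 : Real.log (((1 : ℝ) + (0 : ℕ)) / (r + 1 : ℕ)) = -Real.log (r + 1 : ℕ) := by
    rw [Nat.cast_zero, add_zero, one_div, Real.log_inv]
  rw [e4]
  linarith

/-- lower bound for any block -/
lemma block_lo {q c : ℕ} (hq : 1 ≤ q) (hc : c ≤ 1) {p : ℤ} (hcop : Nat.Coprime q p.natAbs)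
    {β δ : ℝ} (hβ : q * β = p + δ) (hδ : 0 < δ) (hs1 : q * δ ≤ 1) (z : ℝ) {A : ℝ} (hA : 0 ≤ A)
    (hfr : ∀ l < q, Real.exp (-A) ≤ fr (z + ((l : ℝ) + c) * β)) :
    om q 1 - 2 * A ≤ ∑ l ∈ Finset.range q, vv (z + ((l : ℝ) + c) * β) := by
  obtain ⟨j, h1, h3, h4⟩ := block_repr (c := c) hq hcop hβ z
  have hq0 : (0 : ℝ) < q := by exact_mod_cast hq
  set y := fr (q * z) with hy
  have hy0 : 0 < y := fr_pos _
  have hy1 : y ≤ 1 := fr_le_one _
  have hd : ∀ l < q, 0 ≤ ((l : ℝ) + c) * δ ∧ ((l : ℝ) + c) * δ ≤ q * δ := by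
    intro l hl
    refine ⟨by positivity, mul_le_mul_of_nonneg_right ?_ hδ.le⟩
    have : l + c ≤ q := by omega
    exact_mod_cast this
  have hvA : ∀ l < q, 1 - A ≤ vv (z + ((l : ℝ) + c) * β) := by
    intro l hl
    unfold vv
    have := Real.log_le_log (Real.exp_pos _) (hfr l hl)
    rw [Real.log_exp] at this
    linarith
  obtain ⟨r, rfl⟩ : ∃ r, q = r + 1 := ⟨q - 1, by omega⟩
  -- lower function: `H 0 = 1 - A`, `H (i+1) = g i - A [i + 1 = r]`
  set H : ℕ → ℝ := fun i => match i with
    | 0 => 1 - A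
    | i + 1 => 1 + Real.log (((1 : ℝ) + i) / (r + 1 : ℕ)) - (if i + 1 = r then A else 0) with hH
  have hle : ∀ l ∈ Finset.range (r + 1), H (j l) ≤ vv (z + ((l : ℝ) + c) * β) := by
    intro l hl
    have hl' := Finset.mem_range.1 hl
    have hjl := h1 l
    rcases hjl0 : j l with _ | i
    · simp only [hH]
      exact hvA l hl'
    · simp only [hH]
      by_cases hir : i + 1 = r
      · rw [if_pos hir]
        have h5 : Real.log (((1 : ℝ) + i) / (r + 1 : ℕ)) ≤ 0 := by
          refine Real.log_nonpos (by positivity) ?_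
          rw [div_le_one hq0]
          push_cast
          have : ((i : ℝ) + 1) = r := by exact_mod_cast hir
          linarith
        have := hvA l hl'
        linarith
      · rw [if_neg hir, sub_zero]
        have hi2 : i + 2 ≤ r := by omega
        have hi2' : (i : ℝ) + 2 ≤ r := by exact_mod_cast hi2
        unfold vv
        rw [h4, hjl0]
        have hpos : 0 < (y + (i + 1 : ℕ) + ((l : ℝ) + c) * δ) / (r + 1 : ℕ) := by
          have := (hd l hl').1
          positivity
        have hle1 : (y + (i + 1 : ℕ) + ((l : ℝ) + c) * δ) / (r + 1 : ℕ) ≤ 1 := by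
          rw [div_le_one hq0]
          push_cast
          push_cast at hs1
          have := (hd l hl').2
          push_cast at this
          linarith
        rw [fr_eq_of_mem hpos hle1]
        have := Real.log_le_log (show 0 < ((1 : ℝ) + i) / (r + 1 : ℕ) by positivity)
          (div_le_div_of_nonneg_right
          (show (1 : ℝ) + i ≤ y + (i + 1 : ℕ) + ((l : ℝ) + c) * δ by
            push_cast
            linarith [(hd l hl').1]) hq0.le)
        linarith
  refine le_trans ?_ (Finset.sum_le_sum hle)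
  rw [h3 H]
  have e1 : om (r + 1) 1 = ∑ l ∈ Finset.range (r + 1),
      (1 + Real.log (((1 : ℝ) + l) / (r + 1 : ℕ))) := by
    unfold om
    rw [fr_eq_of_mem one_pos le_rfl]
  rw [e1, Finset.sum_range_succ' H, Finset.sum_range_succ (fun l : ℕ =>
    (1 + Real.log (((1 : ℝ) + l) / (r + 1 : ℕ))))]
  have e2 : ∑ k ∈ Finset.range r, H (k + 1) =
      ∑ k ∈ Finset.range r, (1 + Real.log (((1 : ℝ) + k) / (r + 1 : ℕ))) -
        ∑ k ∈ Finset.range r, (if k + 1 = r then A else 0) := by
    rw [← Finset.sum_sub_distrib]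
  have e3 : ∑ k ∈ Finset.range r, (if k + 1 = r then A else 0) ≤ A := by
    rcases r with _ | r
    · simpa using hA
    · rw [Finset.sum_range_succ]
      have : ∑ k ∈ Finset.range r, (if k + 1 = r + 1 then A else 0) = 0 := by
        refine Finset.sum_eq_zero fun k hk => ?_
        have := Finset.mem_range.1 hk
        rw [if_neg (by omega)]
      rw [this]
      simp
  have e4 : Real.log (((1 : ℝ) + (r : ℕ)) / (r + 1 : ℕ)) = 0 := by
    have : ((1 : ℝ) + (r : ℕ)) / (r + 1 : ℕ) = 1 := by
      rw [div_eq_one_iff_eq hq0.ne']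
      push_cast
      ring
    rw [this, Real.log_one]
  rw [e2, e4]
  have e5 : H 0 = 1 - A := rfl
  rw [e5]
  linarith

lemma Ph_add_int (h2 : M2_Stmt) (q : ℕ) (y : ℝ) (k : ℤ) (hq : 1 ≤ q) :
    Ph q (y + k) = Ph q y := by
  have h : Function.Periodic (Ph q) 1 := fun y => h2.2.2.2.2.2.1 q hq y
  have := (h.int_mul k) y
  simpa using this

/-- averages of `om` -/
lemma avg_mid (h2 : M2_Stmt) {q : ℕ} (hq : 1 ≤ q) {t s : ℝ} (ht : 0 < t) (hs : 0 < s)
    (hts : t + s ≤ 1) :
    om q t ≤ (Ph q (t + s) - Ph q t) / s ∧ (Ph q (t + s) - Ph q t) / s ≤ om q (t + s) := by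
  obtain ⟨-, -, hmono, -, hint, -⟩ := h2
  have e : Ph q (t + s) - Ph q t = ∫ r in t..(t + s), om q r := by
    unfold Ph
    rw [intervalIntegral.integral_interval_sub_left (hint q hq _ _) (hint q hq _ _)]
  have hc1 : ∫ _ in t..(t + s), om q t = s * om q t := by
    rw [intervalIntegral.integral_const]
    simp
  have hc2 : ∫ _ in t..(t + s), om q (t + s) = s * om q (t + s) := by
    rw [intervalIntegral.integral_const]
    simp
  rw [e]
  constructor
  · rw [le_div_iff₀ hs, mul_comm, ← hc1]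
    refine intervalIntegral.integral_mono_on (by linarith) (by simp) (hint q hq _ _) ?_
    intro r hr
    exact hmono q hq t r ht hr.1 (hr.2.trans hts)
  · rw [div_le_iff₀ hs, mul_comm, ← hc2]
    refine intervalIntegral.integral_mono_on (by linarith) (hint q hq _ _) (by simp) ?_
    intro r hr
    exact hmono q hq r (t + s) (ht.trans_le hr.1) hr.2 hts

lemma avg_abs (h2 : M2_Stmt) {q : ℕ} (hq : 1 ≤ q) {t s A : ℝ} (hs : 0 < s) (hs1 : s ≤ 1)
    (hA : Real.log (1 / s) ≤ A) :
    |(Ph q (t + s) - Ph q t) / s| ≤ 2 + Real.log q + A := by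
  have h := h2.2.2.2.2.2.2.2.2.2.2 q hq t (t + s) (by linarith) (by linarith)
  have e : t + s - t = s := by ring
  rw [e] at h
  rw [abs_div, abs_of_pos hs, div_le_iff₀ hs]
  nlinarith

open Classical in
/-- the potential -/
noncomputable def Pot (q : ℕ) (s m U K t : ℝ) : ℝ :=
  if t ≤ 1 then max (om q t) (-m)
  else (U + m + K) + max (om q (t - 1)) (-m) + (if 1 + s ≤ t then K else 0)

lemma pot_step (h2 : M2_Stmt) {q : ℕ} (hq : 1 ≤ q) {s A K : ℝ} (hs : 0 < s) (hs1 : s ≤ 1)
    (hA : Real.log (1 / s) ≤ A) (hK : 0 ≤ K) {t e : ℝ} (ht : 0 < t)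
    (hts : t + s ≤ 2) (ht1 : t ≤ 1 → s ≤ t) (he1 : e ≤ K)
    (he2 : fr t + s ≤ 1 → e ≤ om q (fr t + s) - om q (fr t)) :
    e ≤ Pot q s (A + Real.log q) (1 + Real.log q) K (t + s) -
      Pot q s (A + Real.log q) (1 + Real.log q) K t := by
  obtain ⟨hper, -, hmono, hbd, -⟩ := h2
  have hA' : -A ≤ Real.log s := by
    rw [one_div, Real.log_inv] at hA
    linarith
  have hlow : ∀ r, s ≤ r → r ≤ 1 → -(A + Real.log q) ≤ om q r := by
    intro r hr hr1
    have h3 := (hbd q hq r).1
    rw [fr_eq_of_mem (by linarith) hr1] at h3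
    have := Real.log_le_log hs hr
    linarith
  have hup : ∀ r, om q r ≤ 1 + Real.log q := fun r => (hbd q hq r).2
  have hlq : 0 ≤ Real.log q := Real.log_nonneg (by exact_mod_cast hq)
  have hmU : -(A + Real.log q) ≤ 1 + Real.log q :=
    (hlow 1 hs1 le_rfl).trans (hup 1)
  unfold Pot
  by_cases h1 : t + s ≤ 1
  · have ht1' : t ≤ 1 := by linarith
    rw [if_pos h1, if_pos ht1']
    have hst := ht1 ht1'
    rw [max_eq_left (hlow t hst ht1'), max_eq_left (hlow (t + s) (by linarith) h1)]
    rw [fr_eq_of_mem ht ht1'] at he2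
    exact he2 h1
  · rw [if_neg h1]
    push Not at h1
    by_cases h3 : t ≤ 1
    · rw [if_pos h3]
      have h4 : max (om q t) (-(A + Real.log q)) ≤ 1 + Real.log q := max_le (hup t) hmU
      have h5 : -(A + Real.log q) ≤ max (om q (t + s - 1)) (-(A + Real.log q)) := le_max_right _ _
      have h6 : (0 : ℝ) ≤ if 1 + s ≤ t + s then K else 0 := by
        split_ifs
        · exact hK
        · exact le_rfl
      linarith
    · rw [if_neg h3]
      push Not at h3
      have h7 : 1 + s ≤ t + s := by linarith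
      rw [if_pos h7]
      by_cases h8 : 1 + s ≤ t
      · rw [if_pos h8]
        have hfr : fr t = t - 1 := by
          have : t = (t - 1) + ((1 : ℤ) : ℝ) := by push_cast; ring
          conv_lhs => rw [this]
          rw [fr_add_int, fr_eq_of_mem (by linarith) (by linarith)]
        rw [hfr] at he2
        have h9 := he2 (by linarith)
        rw [max_eq_left (hlow (t - 1) (by linarith) (by linarith)),
          max_eq_left (hlow (t + s - 1) (by linarith) (by linarith))]
        have e1 : t - 1 + s = t + s - 1 := by ring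
        rw [e1] at h9
        linarith
      · rw [if_neg h8]
        have h10 : max (om q (t - 1)) (-(A + Real.log q)) ≤
            max (om q (t + s - 1)) (-(A + Real.log q)) := by
          refine max_le_max ?_ le_rfl
          exact hmono q hq (t - 1) (t + s - 1) (by linarith) (by linarith) (by linarith)
        linarith

lemma pot_bounds (h2 : M2_Stmt) {q : ℕ} (hq : 1 ≤ q) {s A K : ℝ} (hA0 : 0 ≤ A) (hK : 0 ≤ K) (t : ℝ) :
    -(A + Real.log q) ≤ Pot q s (A + Real.log q) (1 + Real.log q) K t ∧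
    Pot q s (A + Real.log q) (1 + Real.log q) K t ≤
      2 * (1 + Real.log q) + (A + Real.log q) + 2 * K := by
  obtain ⟨-, -, -, hbd, -⟩ := h2
  have hup : ∀ r, om q r ≤ 1 + Real.log q := fun r => (hbd q hq r).2
  have hlq : 0 ≤ Real.log q := Real.log_nonneg (by exact_mod_cast hq)
  unfold Pot
  split_ifs with h1 h3
  · exact ⟨le_max_right _ _, max_le (by linarith [hup t]) (by linarith)⟩
  · have h4 : -(A + Real.log q) ≤ max (om q (t - 1)) (-(A + Real.log q)) := le_max_right _ _
    have h5 : max (om q (t - 1)) (-(A + Real.log q)) ≤ 1 + Real.log q :=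
      max_le (hup _) (by linarith)
    constructor <;> linarith
  · have h4 : -(A + Real.log q) ≤ max (om q (t - 1)) (-(A + Real.log q)) := le_max_right _ _
    have h5 : max (om q (t - 1)) (-(A + Real.log q)) ≤ 1 + Real.log q :=
      max_le (hup _) (by linarith)
    constructor <;> linarith

/-- summing the errors -/
lemma sum_errors (h2 : M2_Stmt) {q b : ℕ} (hq : 1 ≤ q) (hb : 1 ≤ b) {s A K Y : ℝ} (hs : 0 < s)
    (hbs : b * s ≤ 1) (hA0 : 0 ≤ A) (hK : 0 ≤ K) (hY : 0 < Y) (hY1 : Y ≤ 1)
    (hcase : Real.log (1 / s) ≤ A ∨ (Real.exp (-A) ≤ Y ∧ Y + b * s ≤ 1)) (e : ℕ → ℝ)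
    (he1 : Real.log (1 / s) ≤ A → ∀ i < b, e i ≤ K)
    (he2 : ∀ i < b, fr (Y + i * s) + s ≤ 1 → e i ≤ om q (fr (Y + i * s) + s) - om q (fr (Y + i * s))) :
    ∑ i ∈ Finset.range b, e i ≤ 2 * (1 + Real.log q) + 2 * (A + Real.log q) + 3 * K := by
  have hlq : 0 ≤ Real.log q := Real.log_nonneg (by exact_mod_cast hq)
  obtain ⟨n, rfl⟩ : ∃ n, b = n + 1 := ⟨b - 1, by omega⟩
  push_cast at hbs hcase
  have hn0 : (0 : ℝ) ≤ n := Nat.cast_nonneg n
  have hs1 : s ≤ 1 := by nlinarith
  rcases hcase with hA | ⟨hexp, hY2⟩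
  · have hstep : ∀ i ∈ Finset.range n, e (i + 1) ≤
        Pot q s (A + Real.log q) (1 + Real.log q) K (Y + ((i + 1 : ℕ) + 1 : ℕ) * s) -
        Pot q s (A + Real.log q) (1 + Real.log q) K (Y + (i + 1 : ℕ) * s) := by
      intro i hi
      have hi' := Finset.mem_range.1 hi
      have hin : (i : ℝ) + 1 ≤ n := by exact_mod_cast hi'
      have h3 : Y + ((i + 1 : ℕ) + 1 : ℕ) * s = Y + (i + 1 : ℕ) * s + s := by
        push_cast
        ring
      rw [h3]
      refine pot_step h2 hq hs hs1 hA hK ?_ ?_ ?_ (he1 hA _ (by omega)) (he2 _ (by omega))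
      · positivity
      · push_cast
        nlinarith
      · intro _
        push_cast
        nlinarith [Nat.cast_nonneg (α := ℝ) i]
    rw [Finset.sum_range_succ']
    have h4 := Finset.sum_le_sum hstep
    have h5 : ∑ i ∈ Finset.range n,
        (Pot q s (A + Real.log q) (1 + Real.log q) K (Y + ((i + 1 : ℕ) + 1 : ℕ) * s) -
        Pot q s (A + Real.log q) (1 + Real.log q) K (Y + (i + 1 : ℕ) * s)) =
        Pot q s (A + Real.log q) (1 + Real.log q) K (Y + (n + 1 : ℕ) * s) -
        Pot q s (A + Real.log q) (1 + Real.log q) K (Y + (0 + 1 : ℕ) * s) :=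
      Finset.sum_range_sub
        (fun i => Pot q s (A + Real.log q) (1 + Real.log q) K (Y + (i + 1 : ℕ) * s)) n
    rw [h5] at h4
    have h6 := (pot_bounds h2 hq (s := s) hA0 hK (Y + (n + 1 : ℕ) * s)).2
    have h7 := (pot_bounds h2 hq (s := s) hA0 hK (Y + (0 + 1 : ℕ) * s)).1
    have h8 := he1 hA 0 (by omega)
    linarith
  · have hstep : ∀ i ∈ Finset.range (n + 1), e i ≤
        om q (Y + ((i : ℕ) + 1 : ℕ) * s) - om q (Y + (i : ℕ) * s) := by
      intro i hi
      have hi' := Finset.mem_range.1 hi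
      have hin : (i : ℝ) + 1 ≤ n + 1 := by exact_mod_cast hi'
      have h3 : Y + ((i : ℕ) + 1 : ℕ) * s = Y + (i : ℕ) * s + s := by
        push_cast
        ring
      rw [h3]
      have hle : Y + (i : ℕ) * s + s ≤ 1 := by nlinarith
      have hpos : 0 < Y + (i : ℕ) * s := by positivity
      have h4 := he2 i hi'
      rw [fr_eq_of_mem hpos (by linarith)] at h4
      exact h4 hle
    refine (Finset.sum_le_sum hstep).trans ?_
    rw [Finset.sum_range_sub (fun i => om q (Y + (i : ℕ) * s))]
    have h5 := (h2.2.2.2.1 q hq (Y + (n + 1 : ℕ) * s)).2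
    have h6 := (h2.2.2.2.1 q hq Y).1
    rw [fr_eq_of_mem hY hY1] at h6
    have h7 := Real.log_le_log (Real.exp_pos _) hexp
    rw [Real.log_exp] at h7
    simp only [Nat.cast_zero, zero_mul, add_zero]
    linarith

/-- splitting into blocks -/
lemma sum_blocks (f : ℕ → ℝ) (b q : ℕ) :
    ∑ n ∈ Finset.range (b * q), f n =
      ∑ i ∈ Finset.range b, ∑ l ∈ Finset.range q, f (i * q + l) := by
  induction b with
  | zero => simp
  | succ b ih =>
    rw [Nat.succ_mul, Finset.sum_range_add, ih, Finset.sum_range_succ]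

lemma core (h2 : M2_Stmt) {q b c : ℕ} (hq : 1 ≤ q) (hb : 1 ≤ b) (hc : c ≤ 1) {p : ℤ}
    (hcop : Nat.Coprime q p.natAbs) {β δ : ℝ} (hβ : q * β = p + δ) (hδ : 0 < δ)
    (hbs : b * (q * δ) ≤ 1) (x A : ℝ) (hA0 : 0 ≤ A)
    (hcase : Real.log (1 / (q * δ)) ≤ A ∨
      (Real.exp (-A) ≤ fr (q * x) ∧ fr (q * x) + b * (q * δ) ≤ 1)) :
    (∑ n ∈ Finset.range (b * q), vv (x + ((n : ℝ) + c) * β)) -
      (Ph q (fr (q * x) + b * (q * δ)) - Ph q (fr (q * x))) / (q * δ)
        ≤ 20 * (1 + Real.log q + A) ∧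
    ((∀ l < b * q, Real.exp (-A) ≤ fr (x + ((l : ℝ) + c) * β)) →
      -(20 * (1 + Real.log q + A)) ≤
      (∑ n ∈ Finset.range (b * q), vv (x + ((n : ℝ) + c) * β)) -
      (Ph q (fr (q * x) + b * (q * δ)) - Ph q (fr (q * x))) / (q * δ)) := by
  have hq0 : (0 : ℝ) < q := by exact_mod_cast hq
  have hlq : 0 ≤ Real.log q := Real.log_nonneg (by exact_mod_cast hq)
  set s : ℝ := q * δ with hs
  have hs0 : 0 < s := by positivity
  have hb1 : (1 : ℝ) ≤ b := by exact_mod_cast hb
  have hs1 : s ≤ 1 := by nlinarith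
  set Y := fr (q * x) with hY
  have hY0 : 0 < Y := fr_pos _
  have hY1 : Y ≤ 1 := fr_le_one _
  obtain ⟨k, hk⟩ := exists_int (q * x)
  rw [← hY] at hk
  -- the starting points of the blocks
  set z : ℕ → ℝ := fun i => x + (i * q : ℕ) * β with hz
  have hqz : ∀ i, fr (q * z i) = fr (Y + i * s) := by
    intro i
    have e : q * z i = (Y + i * s) + ((k + (i * q : ℕ) * p : ℤ) : ℝ) := by
      simp only [hz, hs]
      push_cast
      linear_combination hk + (i * q : ℝ) * hβ
    rw [e, fr_add_int]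
  set B : ℕ → ℝ := fun i => ∑ l ∈ Finset.range q, vv (z i + ((l : ℝ) + c) * β) with hB
  set a : ℕ → ℝ := fun i => (Ph q (Y + i * s + s) - Ph q (Y + i * s)) / s with ha
  have hsum : (∑ n ∈ Finset.range (b * q), vv (x + ((n : ℝ) + c) * β)) =
      ∑ i ∈ Finset.range b, B i := by
    rw [sum_blocks]
    refine Finset.sum_congr rfl fun i _ => Finset.sum_congr rfl fun l _ => ?_
    simp only [hz]
    congr 1
    push_cast
    ring
  have htel : (Ph q (Y + b * s) - Ph q Y) / s = ∑ i ∈ Finset.range b, a i := by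
    have : ∀ i ∈ Finset.range b, a i =
        Ph q (Y + ((i + 1 : ℕ) : ℝ) * s) / s - Ph q (Y + (i : ℝ) * s) / s := by
      intro i _
      simp only [ha]
      rw [sub_div]
      congr 3
      push_cast
      ring
    rw [Finset.sum_congr rfl this, Finset.sum_range_sub (fun i : ℕ => Ph q (Y + (i : ℝ) * s) / s)]
    rw [sub_div]
    simp
  have hE : (∑ n ∈ Finset.range (b * q), vv (x + ((n : ℝ) + c) * β)) -
      (Ph q (Y + b * s) - Ph q Y) / s = ∑ i ∈ Finset.range b, (B i - a i) := by
    rw [hsum, htel, Finset.sum_sub_distrib]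
  -- averages through the representative
  have haf : ∀ i, a i = (Ph q (fr (Y + i * s) + s) - Ph q (fr (Y + i * s))) / s := by
    intro i
    obtain ⟨k', hk'⟩ := exists_int (Y + i * s)
    simp only [ha]
    have e1 : Ph q (Y + i * s + s) = Ph q (fr (Y + i * s) + s) := by
      have : Y + i * s + s = (fr (Y + i * s) + s) + (k' : ℝ) := by
        linear_combination hk'
      rw [this, Ph_add_int h2 q _ k' hq]
    have e2 : Ph q (Y + i * s) = Ph q (fr (Y + i * s)) := by
      conv_lhs => rw [hk']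
      rw [Ph_add_int h2 q _ k' hq]
    rw [e1, e2]
  set K : ℝ := 4 + 3 * Real.log q + 3 * A with hK
  have hK0 : 0 ≤ K := by positivity
  have hom1u := (h2.2.2.2.1 q hq 1).2
  have hom1l := (h2.2.2.2.1 q hq 1).1
  rw [fr_eq_of_mem one_pos le_rfl, Real.log_one] at hom1l
  have hfin : 2 * (1 + Real.log q) + 2 * (A + Real.log q) + 3 * K ≤ 20 * (1 + Real.log q + A) := by
    rw [hK]
    linarith
  have hmidB : ∀ i : ℕ, fr (Y + i * s) + s ≤ 1 → om q (fr (Y + i * s)) ≤ B i ∧
      B i ≤ om q (fr (Y + i * s) + s) := by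
    intro i hi
    have := block_mid (c := c) hq hc hcop hβ hδ (z i) (by rw [hqz i]; exact hi)
    rw [hqz i] at this
    exact this
  constructor
  · rw [hE]
    refine (sum_errors h2 hq hb hs0 hbs hA0 hK0 hY0 hY1 hcase (fun i => B i - a i) ?_ ?_).trans hfin
    · intro hA i _
      have h3 := block_up (c := c) hq hc hcop hβ hδ hs1 (z i)
      have h4 := avg_abs h2 hq (t := Y + i * s) hs0 hs1 hA
      have h5 := (abs_le.1 h4).1
      have h6 : B i ≤ om q 1 + Real.log q := h3
      have h7 : -(2 + Real.log q + A) ≤ a i := h5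
      rw [hK]
      linarith
    · intro i _ hi
      have h3 := (hmidB i hi).2
      have h4 := (avg_mid h2 hq (fr_pos (Y + i * s)) hs0 hi).1
      rw [← haf i] at h4
      linarith
  · intro hfr
    rw [hE]
    have hneg : ∑ i ∈ Finset.range b, (B i - a i) = -∑ i ∈ Finset.range b, (a i - B i) := by
      rw [← Finset.sum_neg_distrib]
      refine Finset.sum_congr rfl fun i _ => ?_
      ring
    rw [hneg]
    refine neg_le_neg ?_
    refine (sum_errors h2 hq hb hs0 hbs hA0 hK0 hY0 hY1 hcase (fun i => a i - B i) ?_ ?_).trans hfin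
    · intro hA i hib
      have h3 := block_lo (c := c) hq hc hcop hβ hδ hs1 (z i) hA0 (by
        intro l hl
        have h8 : i * q + l < b * q := by
          calc i * q + l < i * q + q := by omega
            _ = (i + 1) * q := by ring
            _ ≤ b * q := Nat.mul_le_mul_right q hib
        have h9 := hfr (i * q + l) h8
        have e : z i + ((l : ℝ) + c) * β = x + (((i * q + l : ℕ) : ℝ) + c) * β := by
          simp only [hz]
          push_cast
          ring
        rw [e]
        exact h9)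
      have h4 := avg_abs h2 hq (t := Y + i * s) hs0 hs1 hA
      have h5 := (abs_le.1 h4).2
      have h6 : om q 1 - 2 * A ≤ B i := h3
      have h7 : a i ≤ 2 + Real.log q + A := h5
      rw [hK]
      linarith
    · intro i _ hi
      have h3 := (hmidB i hi).1
      have h4 := (avg_mid h2 hq (fr_pos (Y + i * s)) hs0 hi).2
      rw [← haf i] at h4
      linarith

end M3mod

open M3mod in
theorem M3 (h2 : M2_Stmt) : M3_Stmt := by
  intro β q b hq hb hδ0 hcop hbq x A hA0 hcase
  set δ := dl β q with hδ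
  set p := round ((q : ℝ) * β) with hp
  have hβ : (q : ℝ) * β = p + δ := by
    rw [hδ]
    unfold dl
    rw [← hp]
    ring
  have hq0 : (0 : ℝ) < q := by exact_mod_cast hq
  push_cast at hbq hcase
  obtain ⟨k, hk⟩ := exists_int (q * x)
  rcases lt_or_gt_of_ne hδ0 with hneg | hpos
  · -- negative displacement: reverse the orbit
    set X := x + (b * q : ℕ) * β with hX
    have hβ' : (q : ℝ) * (-β) = ((-p : ℤ) : ℝ) + (-δ) := by
      push_cast
      linarith
    have habs : |δ| = -δ := abs_of_neg hneg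
    rw [habs] at hbq hcase
    have hcop' : Nat.Coprime q (-p).natAbs := by rwa [Int.natAbs_neg]
    have hqX : q * X = (q * x + b * (q * δ)) + ((b * q * p : ℤ) : ℝ) := by
      rw [hX]
      push_cast
      linear_combination (b * q : ℝ) * hβ
    have hfrX : fr (q * X) = fr (q * x + b * (q * δ)) := by
      rw [hqX, fr_add_int]
    have hPhX : Ph q (fr (q * X)) = Ph q (q * X) := by
      obtain ⟨k', hk'⟩ := exists_int (q * X)
      conv_rhs => rw [hk']
      rw [Ph_add_int h2 q _ k' hq]
    have hPhx : Ph q (fr (q * X) + b * (q * -δ)) = Ph q (q * x) := by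
      obtain ⟨k', hk'⟩ := exists_int (q * X)
      have : q * x = (fr (q * X) + b * (q * -δ)) + ((k' - b * q * p : ℤ) : ℝ) := by
        push_cast
        push_cast at hqX
        linear_combination hk' - hqX
      rw [this, Ph_add_int h2 q _ _ hq]
    have hsum : Bs β (b * q) x = ∑ n ∈ Finset.range (b * q), vv (X + ((n : ℝ) + (1 : ℕ)) * (-β)) := by
      unfold Bs
      rw [← Finset.sum_range_reflect (fun l : ℕ => vv (x + (l : ℝ) * β))]
      refine Finset.sum_congr rfl fun n hn => ?_
      have hn' := Finset.mem_range.1 hn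
      congr 1
      have e : ((b * q - 1 - n : ℕ) : ℝ) = (b * q : ℕ) - 1 - n := by
        rw [Nat.cast_sub (by omega), Nat.cast_sub (by omega)]
        push_cast
        ring
      rw [e, hX]
      push_cast
      ring
    have hC := core h2 (c := 1) hq hb le_rfl hcop' hβ' (by linarith : 0 < -δ) (x := X) (A := A)
      (by linarith) hA0 (by
        rcases hcase with h | ⟨h3, h4⟩
        · exact Or.inl h
        · right
          have hval : fr (q * X) = fr (q * x) + b * (q * δ) := by
            rw [hfrX]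
            have : q * x + b * (q * δ) = (fr (q * x) + b * (q * δ)) + (k : ℝ) := by
              linear_combination hk
            rw [this, fr_add_int]
            refine fr_eq_of_mem ?_ ?_
            · have := Real.exp_pos (-A)
              linarith
            · have := fr_le_one (q * x)
              have : (b : ℝ) * (q * δ) ≤ 0 := by
                have hb0 : (0 : ℝ) ≤ b := Nat.cast_nonneg b
                have : (q : ℝ) * δ ≤ 0 := mul_nonpos_of_nonneg_of_nonpos hq0.le hneg.le
                exact mul_nonpos_of_nonneg_of_nonpos hb0 this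
              linarith
          rw [hval]
          constructor
          · linarith
          · have := fr_le_one (q * x)
            linarith)
    rw [hPhX, hPhx] at hC
    have e2 : (Ph q (q * (x + (b * q : ℕ) * β)) - Ph q (q * x)) / (q * δ) =
        (Ph q (q * x) - Ph q (q * X)) / (q * -δ) := by
      rw [← hX, mul_neg, div_neg, ← neg_div, neg_sub]
    rw [e2, hsum]
    refine ⟨hC.1, fun hfr => hC.2 ?_⟩
    intro l hl
    have h5 := hfr (b * q - 1 - l) (by omega)
    have e : ((b * q - 1 - l : ℕ) : ℝ) = (b * q : ℕ) - 1 - l := by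
      rw [Nat.cast_sub (by omega), Nat.cast_sub (by omega)]
      push_cast
      ring
    rw [e] at h5
    have e3 : X + ((l : ℝ) + (1 : ℕ)) * -β = x + ((b * q : ℕ) - 1 - l) * β := by
      rw [hX]
      push_cast
      ring
    rw [e3]
    exact h5
  · have habs : |δ| = δ := abs_of_pos hpos
    rw [habs] at hbq hcase
    have hPhx : Ph q (fr (q * x)) = Ph q (q * x) := by
      conv_rhs => rw [hk]
      rw [Ph_add_int h2 q _ k hq]
    have hPhX : Ph q (fr (q * x) + b * (q * δ)) = Ph q (q * (x + (b * q : ℕ) * β)) := by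
      have : q * (x + (b * q : ℕ) * β) =
          (fr (q * x) + b * (q * δ)) + ((k + b * q * p : ℤ) : ℝ) := by
        push_cast
        linear_combination hk + (b * q : ℝ) * hβ
      rw [this, Ph_add_int h2 q _ _ hq]
    have hC := core h2 (c := 0) hq hb (by norm_num) hcop hβ hpos (x := x) (A := A)
      (by linarith) hA0 (by
        rcases hcase with h | ⟨h3, h4⟩
        · exact Or.inl h
        · right
          have hb0 : (0 : ℝ) ≤ b := Nat.cast_nonneg b
          have : 0 ≤ (b : ℝ) * q * δ := by positivity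
          constructor <;> linarith)
    rw [hPhx, hPhX] at hC
    have hsum : Bs β (b * q) x = ∑ n ∈ Finset.range (b * q), vv (x + ((n : ℝ) + (0 : ℕ)) * β) := by
      unfold Bs
      simp
    rw [hsum]
    refine ⟨hC.1, fun hfr => hC.2 ?_⟩
    intro l hl
    have := hfr l hl
    simpa using this

end Pool.Agent.Bishop
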